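import Pool.Agent.H26.ST.Defs

/-!
# The sausages `Y ∪ corridor ∪ (X + (N, 0))` and their translates are far apart
-/

open MeasureTheory ProbabilityTheory unitInterval

namespace Pool.Agent.H26.ST

open Pool.Agent.H89.Perc Pool.Agent.H61.NC Pool.Agent.H59.EX

/-- Periodic configuration. -/
def PerInv (N : ℕ) (ζ : Config) : Prop :=
  ∀ (z : ℤ × ℤ) (e : Edge), ζ (shiftE (z.1 * N, z.2 * N) e) = ζ e

/-- Translation by `-z N`. -/
def sh (N : ℕ) (z : ℤ × ℤ) (v : Vert) : Vert := (v.1 - z.1 * N, v.2 - z.2 * N)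

/-- The data of the deterministic argument. -/
structure TD (N k : ℕ) (ζ : Config) (X Y : Set Vert) : Prop where
  hk : 64 ≤ k
  hN : 128 * k ≤ N
  per : PerInv N ζ
  Xs : X ⊆ dom .W .E k
  Ys : Y ⊆ dom .W .E k
  TX : T .W k ⊆ X
  TY : T .E k ⊆ Y
  disj : ∀ v ∈ X, v ∉ Y
  clX : ∀ a ∈ X, ∀ b ∈ dom .W .E k, ∀ e, Joins e a b → ζ e = true → b ∈ X
  clY : ∀ a ∈ Y, ∀ b ∈ dom .W .E k, ∀ e, Joins e a b → ζ e = true → b ∈ Y
  mX : ∀ v ∈ X, v ∈ sphere 0 (32 * k) → v ∈ Mouth .W k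
  mY : ∀ v ∈ Y, v ∈ sphere 0 (32 * k) → v ∈ Mouth .E k

/-- Equal or joined by an open edge. -/
def Rel1 (ζ : Config) (a b : Vert) : Prop := a = b ∨ ∃ e, Joins e a b ∧ ζ e = true

/-- In the sausage with index `z`. -/
def In (N k : ℕ) (X Y : Set Vert) (z : ℤ × ℤ) (v : Vert) : Prop :=
  sh N z v ∈ Y ∨ sh N z v ∈ Cor N k ∨ sh N (z.1 + 1, z.2) v ∈ X

theorem Rel1.symm {ζ : Config} {a b : Vert} (h : Rel1 ζ a b) : Rel1 ζ b a := by
  rcases h with h | ⟨e, he, ho⟩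
  · exact Or.inl h.symm
  · exact Or.inr ⟨e, he.symm, ho⟩

theorem near_of_joins {e : Edge} {a b : Vert} (hj : Joins e a b) :
    b.1 ≤ a.1 + 1 ∧ a.1 ≤ b.1 + 1 ∧ b.2 ≤ a.2 + 1 ∧ a.2 ≤ b.2 + 1 := by
  have h : Step allOpen Set.univ a b := ⟨trivial, trivial, e, hj, rfl⟩
  exact ⟨h.fst_le.1, h.fst_le.2, h.snd_le.1, h.snd_le.2⟩

theorem Rel1.near {ζ : Config} {a b : Vert} (h : Rel1 ζ a b) :
    b.1 ≤ a.1 + 1 ∧ a.1 ≤ b.1 + 1 ∧ b.2 ≤ a.2 + 1 ∧ a.2 ≤ b.2 + 1 := by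
  rcases h with h | ⟨e, he, ho⟩
  · subst h; omega
  · exact near_of_joins he

theorem joins_sh {N : ℕ} (z : ℤ × ℤ) {e : Edge} {a b : Vert} (h : Joins e a b) :
    Joins (shiftE (-(z.1 * N), -(z.2 * N)) e) (sh N z a) (sh N z b) := by
  have := joins_shift (-(z.1 * N), -(z.2 * N)) h
  simpa [sh, sub_eq_add_neg] using this

theorem per_sh {N : ℕ} {ζ : Config} (h : PerInv N ζ) (z : ℤ × ℤ) (e : Edge) :
    ζ (shiftE (-(z.1 * N), -(z.2 * N)) e) = ζ e := by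
  have := h (-z.1, -z.2) e
  simpa using this

theorem Rel1.sh {N : ℕ} {ζ : Config} (hp : PerInv N ζ) (z : ℤ × ℤ) {a b : Vert}
    (h : Rel1 ζ a b) : Rel1 ζ (sh N z a) (sh N z b) := by
  rcases h with h | ⟨e, he, ho⟩
  · exact Or.inl (by rw [h])
  · exact Or.inr ⟨_, joins_sh z he, by rw [per_sh hp]; exact ho⟩

theorem mulN (N : ℕ) (z : ℤ) : (z ≤ -1 ∧ z * N ≤ -N) ∨ (z = 0 ∧ z * N = 0) ∨
    (z = 1 ∧ z * N = N) ∨ (2 ≤ z ∧ 2 * N ≤ z * N) := by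
  have h0 : (0 : ℤ) ≤ N := Int.natCast_nonneg N
  rcases lt_trichotomy z 0 with h | h | h
  · left
    exact ⟨by omega, by nlinarith⟩
  · right; left
    exact ⟨h, by rw [h]; ring⟩
  · rcases eq_or_lt_of_le (show 1 ≤ z by omega) with h1 | h1
    · right; right; left
      exact ⟨h1.symm, by rw [← h1]; ring⟩
    · right; right; right
      exact ⟨by omega, by nlinarith⟩

theorem mem_dom {k : ℕ} {v : Vert} : v ∈ dom .W .E k ↔
    (-(32 * k : ℤ) ≤ v.1 ∧ v.1 ≤ 32 * k ∧ -(32 * k : ℤ) ≤ v.2 ∧ v.2 ≤ 32 * k) ∨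
    (-(36 * k : ℤ) ≤ v.1 ∧ v.1 ≤ -(28 * k) ∧ -(3 * k : ℤ) ≤ v.2 ∧ v.2 ≤ 3 * k) ∨
    (28 * k ≤ v.1 ∧ v.1 ≤ 36 * k ∧ -(3 * k : ℤ) ≤ v.2 ∧ v.2 ≤ 3 * k) := by
  simp only [dom, Set.mem_union, mem_ball, T, rect, Set.mem_ofPred_eq, Prod.fst_zero, Prod.snd_zero,
    Nat.cast_mul, Nat.cast_ofNat, zero_sub, zero_add]

theorem mem_TW {k : ℕ} {v : Vert} : v ∈ T .W k ↔
    (-(36 * k : ℤ) ≤ v.1 ∧ v.1 ≤ -(28 * k) ∧ -(3 * k : ℤ) ≤ v.2 ∧ v.2 ≤ 3 * k) := Iff.rfl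

theorem mem_TE {k : ℕ} {v : Vert} : v ∈ T .E k ↔
    (28 * (k : ℤ) ≤ v.1 ∧ v.1 ≤ 36 * k ∧ -(3 * k : ℤ) ≤ v.2 ∧ v.2 ≤ 3 * k) := Iff.rfl

theorem mem_Cor {N k : ℕ} {v : Vert} : v ∈ Cor N k ↔
    (28 * (k : ℤ) ≤ v.1 ∧ v.1 ≤ N - 28 * k ∧ -(3 * k : ℤ) ≤ v.2 ∧ v.2 ≤ 3 * k) := Iff.rfl

variable {N k : ℕ} {ζ : Config} {X Y : Set Vert} {a b : Vert} {i j : ℤ × ℤ}

theorem TD.xy (h : TD N k ζ X Y) (ha : a ∈ X) (hb : b ∈ Y) (hr : Rel1 ζ a b) : False := by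
  rcases hr with hr | ⟨e, he, ho⟩
  · exact h.disj a ha (hr ▸ hb)
  · exact h.disj b (h.clX a ha b (h.Ys hb) e he ho) hb

/-- Two translates of the domain which are close are equal. -/
theorem TD.domdom (h : TD N k ζ X Y) (ha : sh N i a ∈ dom .W .E k) (hb : sh N j b ∈ dom .W .E k)
    (hr : Rel1 ζ a b) : i = j := by
  have hn := hr.near
  have hk := h.hk
  have hN : (128 * k : ℤ) ≤ N := by exact_mod_cast h.hN
  rw [mem_dom] at ha hb
  simp only [sh] at ha hb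
  have e1 := mulN N (i.1 - j.1)
  have e2 := mulN N (i.2 - j.2)
  rw [sub_mul] at e1 e2
  obtain ⟨i1, i2⟩ := i
  obtain ⟨j1, j2⟩ := j
  simp only at *
  rw [Prod.mk.injEq]
  omega

theorem TD.cor (h : TD N k ζ X Y) (ha : sh N i a ∈ Cor N k) (hb : sh N j b ∈ Cor N k)
    (hr : Rel1 ζ a b) : i = j := by
  have hn := hr.near
  have hk := h.hk
  have hN : (128 * k : ℤ) ≤ N := by exact_mod_cast h.hN
  rw [mem_Cor] at ha hb
  simp only [sh] at ha hb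
  have e1 := mulN N (i.1 - j.1)
  have e2 := mulN N (i.2 - j.2)
  rw [sub_mul] at e1 e2
  obtain ⟨i1, i2⟩ := i
  obtain ⟨j1, j2⟩ := j
  simp only at *
  rw [Prod.mk.injEq]
  omega

theorem TD.XY (h : TD N k ζ X Y) (ha : sh N i a ∈ X) (hb : sh N j b ∈ Y)
    (hr : Rel1 ζ a b) : False := by
  have h1 := h.domdom (h.Xs ha) (h.Ys hb) hr
  subst h1
  exact h.xy ha hb (hr.sh h.per i)

theorem TD.YC (h : TD N k ζ X Y) (ha : sh N i a ∈ Y) (hb : sh N j b ∈ Cor N k)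
    (hr : Rel1 ζ a b) : i = j := by
  have hr' := hr.sh h.per i
  have hn := hr'.near
  have hk := h.hk
  have hN : (128 * k : ℤ) ≤ N := by exact_mod_cast h.hN
  have hd := h.Ys ha
  have hTW : sh N i a ∉ T .W k := fun h1 => h.disj _ (h.TX h1) ha
  have hbX : sh N i b ∉ T .W k := fun h1 => h.xy (h.TX h1) ha hr'.symm
  rw [mem_dom] at hd
  rw [mem_TW] at hTW hbX
  rw [mem_Cor] at hb
  have e1 := mulN N (i.1 - j.1)
  have e2 := mulN N (i.2 - j.2)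
  rw [sub_mul] at e1 e2
  simp only [sh] at *
  obtain ⟨i1, i2⟩ := i
  obtain ⟨j1, j2⟩ := j
  simp only at *
  rw [Prod.mk.injEq]
  omega

theorem TD.XC (h : TD N k ζ X Y) (ha : sh N i a ∈ X) (hb : sh N j b ∈ Cor N k)
    (hr : Rel1 ζ a b) : i = (j.1 + 1, j.2) := by
  have hr' := hr.sh h.per i
  have hn := hr'.near
  have hk := h.hk
  have hN : (128 * k : ℤ) ≤ N := by exact_mod_cast h.hN
  have hd := h.Xs ha
  have hTE : sh N i a ∉ T .E k := fun h1 => h.disj _ ha (h.TY h1)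
  have hbY : sh N i b ∉ T .E k := fun h1 => h.xy ha (h.TY h1) hr'
  rw [mem_dom] at hd
  rw [mem_TE] at hTE hbY
  rw [mem_Cor] at hb
  have e1 := mulN N (i.1 - j.1)
  have e2 := mulN N (i.2 - j.2)
  rw [sub_mul] at e1 e2
  simp only [sh] at *
  obtain ⟨i1, i2⟩ := i
  obtain ⟨j1, j2⟩ := j
  simp only at *
  rw [Prod.mk.injEq]
  omega

/-- Different sausages are neither joined by an open edge nor do they intersect. -/
theorem TD.sep (h : TD N k ζ X Y) (ha : In N k X Y i a) (hb : In N k X Y j b)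
    (hr : Rel1 ζ a b) : i = j := by
  rcases ha with ha | ha | ha <;> rcases hb with hb | hb | hb
  · exact h.domdom (h.Ys ha) (h.Ys hb) hr
  · exact h.YC ha hb hr
  · exact (h.XY hb ha hr.symm).elim
  · exact (h.YC hb ha hr.symm).symm
  · exact h.cor ha hb hr
  · have h1 := h.XC hb ha hr.symm
    rw [Prod.mk.injEq] at h1
    exact (Prod.ext (by omega) h1.2).symm
  · exact (h.XY ha hb hr).elim
  · have h1 := h.XC ha hb hr
    rw [Prod.mk.injEq] at h1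
    exact Prod.ext (by omega) h1.2
  · have h1 := h.domdom (h.Xs ha) (h.Xs hb) hr
    rw [Prod.mk.injEq] at h1
    exact Prod.ext (by omega) h1.2

/-- Open edges leave the sausage near the corridor. -/
theorem TD.exit (h : TD N k ζ X Y) (ha : In N k X Y (0, 0) a) (hb : ¬ In N k X Y (0, 0) b)
    {e : Edge} (he : Joins e a b) (ho : ζ e = true) :
    28 * (k : ℤ) ≤ a.1 ∧ a.1 ≤ N - 28 * k ∧ -(4 * k : ℤ) ≤ a.2 ∧ a.2 ≤ 4 * k := by
  have hn := near_of_joins he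
  have hk := h.hk
  have hN : (128 * k : ℤ) ≤ N := by exact_mod_cast h.hN
  have s0 : ∀ v : Vert, sh N (0, 0) v = v := fun v => by simp [sh]
  unfold In at ha hb
  rw [s0] at ha hb
  push Not at hb
  have hr : Rel1 ζ a b := Or.inr ⟨e, he, ho⟩
  rcases ha with ha | ha | ha
  · have hd := h.Ys ha
    have hbd : b ∉ dom .W .E k := fun h1 => hb.1 (h.clY a ha b h1 e he ho)
    have hTW : a ∉ T .W k := fun h1 => h.disj _ (h.TX h1) ha
    by_cases hTE : a ∈ T .E k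
    · rw [mem_TE] at hTE; omega
    have hab : a ∈ ball 0 (32 * k) := by
      rcases hd with hd | hd | hd
      · exact hd
      · exact absurd hd hTW
      · exact absurd hd hTE
    have hbb : b ∉ ball 0 (32 * k) := fun h1 => hbd (Or.inl h1)
    have := h.mY a ha (mem_sphere_of_joins he hab hbb)
    simp only [Mouth, rect, Set.mem_ofPred_eq] at this
    omega
  · rw [mem_Cor] at ha
    omega
  · have he' := joins_sh (N := N) (0 + 1, 0) he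
    have ho' : ζ (shiftE (-(((0 : ℤ) + 1, (0 : ℤ)).1 * N), -(((0 : ℤ) + 1, (0 : ℤ)).2 * N)) e) = true := by
      rw [per_sh h.per]; exact ho
    have hd := h.Xs ha
    have hbd : sh N (0 + 1, 0) b ∉ dom .W .E k := fun h1 => hb.2.2 (h.clX _ ha _ h1 _ he' ho')
    have hTE : sh N (0 + 1, 0) a ∉ T .E k := fun h1 => h.disj _ ha (h.TY h1)
    by_cases hTW : sh N (0 + 1, 0) a ∈ T .W k
    · rw [mem_TW] at hTW
      simp only [sh] at hTW
      omega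
    have hab : sh N (0 + 1, 0) a ∈ ball 0 (32 * k) := by
      rcases hd with hd | hd | hd
      · exact hd
      · exact absurd hd hTW
      · exact absurd hd hTE
    have hbb : sh N (0 + 1, 0) b ∉ ball 0 (32 * k) := fun h1 => hbd (Or.inl h1)
    have := h.mX _ ha (mem_sphere_of_joins he' hab hbb)
    simp only [Mouth, rect, Set.mem_ofPred_eq, sh] at this
    omega

end Pool.Agent.H26.ST
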