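import Pool.Agent.H26.ST.Cells

/-!
# With the source edge closed there is no winding path
-/

open MeasureTheory ProbabilityTheory unitInterval

namespace Pool.Agent.H26.ST

open Pool.Agent.H89.Perc Pool.Agent.H61.NC Pool.Agent.H59.EX

variable {N k : ℕ} {ζ η : Config} {X Y : Set Vert} {a b : Vert} {i j : ℤ × ℤ}

theorem perInv_per (N : ℕ) (ω : Config) : PerInv N (per N ω) := by
  rintro z ⟨x, y, t⟩
  simp only [per, shiftE]
  rw [Int.add_mul_emod_self_right, Int.add_mul_emod_self_right]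

theorem in_sh : In N k X Y i (sh N j a) ↔ In N k X Y (i.1 + j.1, i.2 + j.2) a := by
  have e1 : sh N i (sh N j a) = sh N (i.1 + j.1, i.2 + j.2) a := by
    simp only [sh, Prod.mk.injEq]
    constructor <;> ring
  have e2 : sh N (i.1 + 1, i.2) (sh N j a) = sh N (i.1 + j.1 + 1, i.2 + j.2) a := by
    simp only [sh, Prod.mk.injEq]
    constructor <;> ring
  unfold In
  rw [e1, e2]

theorem in_sh0 : In N k X Y (0, 0) (sh N j a) ↔ In N k X Y j a := by
  rw [in_sh]
  simp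

/-- Open determined edges have both endpoints in the same sausage. -/
theorem TD.det (h : TD N k ζ X Y) {e : Edge} (he : Joins e a b) (ho : ζ e = true)
    (ht : e ∈ Pool.Agent.H59.EX.detE (modE N) .W .E k (EC N k) (X ∪ Y)) :
    ∃ i, In N k X Y i a ∧ In N k X Y i b := by
  obtain ⟨e', he', hm⟩ := ht
  have hz : ∃ z : ℤ × ℤ, e' = shiftE (-(z.1 * N), -(z.2 * N)) e := by
    obtain ⟨x, y, t⟩ := e
    obtain ⟨x', y', t'⟩ := e'
    simp only [modE, Prod.mk.injEq] at hm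
    obtain ⟨h1, h2, h3⟩ := hm
    obtain ⟨m1, hm1⟩ : (N : ℤ) ∣ x - x' := Int.ModEq.dvd (Int.ModEq.symm h1)
    obtain ⟨m2, hm2⟩ : (N : ℤ) ∣ y - y' := Int.ModEq.dvd (Int.ModEq.symm h2)
    refine ⟨(m1, m2), ?_⟩
    simp only [shiftE, Prod.mk.injEq]
    refine ⟨?_, ?_, h3.symm⟩
    · rw [mul_comm] at hm1; omega
    · rw [mul_comm] at hm2; omega
  obtain ⟨z, hz⟩ := hz
  subst hz
  have hj := joins_sh (N := N) z he
  have ho' : ζ (shiftE (-(z.1 * N), -(z.2 * N)) e) = true := by rw [per_sh h.per]; exact ho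
  have hX : sh N z a ∈ X → sh N z b ∈ X → ∃ i, In N k X Y i a ∧ In N k X Y i b := by
    intro h1 h2
    refine ⟨(z.1 - 1, z.2), Or.inr (Or.inr ?_), Or.inr (Or.inr ?_)⟩
    · simpa using h1
    · simpa using h2
  rcases he' with he' | he' | he'
  · rw [touch_of_joins hj] at he'
    obtain ⟨⟨h1, h2⟩, h3⟩ := he'
    rcases h3 with (h3 | h3) | (h3 | h3)
    · exact hX h3 (h.clX _ h3 _ h2 _ hj ho')
    · exact ⟨z, Or.inl h3, Or.inl (h.clY _ h3 _ h2 _ hj ho')⟩
    · exact hX (h.clX _ h3 _ h1 _ hj.symm ho') h3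
    · exact ⟨z, Or.inl (h.clY _ h3 _ h1 _ hj.symm ho'), Or.inl h3⟩
  · have h1 := (inE_of_joins hj).1 he'.1
    exact ⟨z, Or.inr (Or.inl h1.1), Or.inr (Or.inl h1.2)⟩
  · have h1 := (inE_of_joins hj).1 he'
    exact hX (h.TX h1.1) (h.TX h1.2)

/-- The cluster of a sausage does not reach other sausages. -/
theorem TD.confine (h : TD N k ζ X Y) {ρ K : ℕ} (hρ : 1 ≤ ρ) (hρk : 8 * ρ ≤ k) (hK : N ≤ K * ρ)
    (hle : ∀ e, ζ e = true → η e = true)
    (hseal : η ∈ Seal (grid ρ K) ρ (Pool.Agent.H59.EX.detE (modE N) .W .E k (EC N k) (X ∪ Y)))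
    {x z : Vert} (hx : In N k X Y (0, 0) x) (hc : Conn ζ Set.univ x z) (hz : In N k X Y j z) :
    j = (0, 0) := by
  have hk := h.hk
  have hN : (128 * k : ℤ) ≤ N := by exact_mod_cast h.hN
  have hρk' : (8 * ρ : ℤ) ≤ k := by exact_mod_cast hρk
  by_contra hj
  have key := seal_confine (η := ζ) (ω := η) (W := Set.univ) (S := {v | In N k X Y (0, 0) v})
    (F := {v | ∃ j : ℤ × ℤ, j ≠ (0, 0) ∧ In N k X Y j v})
    (Ex := {a | 28 * (k : ℤ) ≤ a.1 ∧ a.1 ≤ N - 28 * k ∧ -(4 * k : ℤ) ≤ a.2 ∧ a.2 ≤ 4 * k})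
    (t := Pool.Agent.H59.EX.detE (modE N) .W .E k (EC N k) (X ∪ Y)) (G := grid ρ K) (ρ := ρ)
    (fun e _ => hle e) hseal ?_ ?_ ?_ ?_ ?_ (x := x) (z := z) hx hc
  · rcases key with h1 | ⟨h1, -⟩
    · exact hj (h.sep hz h1 (Or.inl rfl))
    · exact h1 ⟨j, hj, hz⟩
  · rintro a ⟨h1, h2, h3, h4⟩
    have hK' : (N : ℤ) ≤ ((K * ρ : ℕ) : ℤ) := by exact_mod_cast hK
    refine exists_grid hρ ?_
    rw [mem_ball, Prod.fst_zero, Prod.snd_zero]
    omega
  · intro a b e he ho _ _ ha hb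
    refine ⟨h.exit ha hb he ho, ?_, ?_⟩
    · rintro ⟨j', hj', hb'⟩
      exact hj' (h.sep hb' ha (Or.inr ⟨e, he.symm, ho⟩))
    · intro ht
      obtain ⟨i, hi1, hi2⟩ := h.det he ho ht
      have h1 := h.sep hi1 ha (Or.inl rfl)
      subst h1
      exact hb hi2
  · rintro a b e he ho - - ha ha' ⟨j', hj', hb⟩ x ⟨h1, h2, h3, h4⟩ hbx
    have ha2 : ¬ In N k X Y (0, 0) (sh N j' a) := by
      rw [in_sh0]
      exact fun h5 => ha' ⟨j', hj', h5⟩
    have hb2 : In N k X Y (0, 0) (sh N j' b) := in_sh0.2 hb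
    have h5 := h.exit hb2 ha2 (joins_sh j' he.symm) (by rw [per_sh h.per]; exact ho)
    have e1 := mulN N j'.1
    have e2 := mulN N j'.2
    obtain ⟨j1, j2⟩ := j'
    have hj3 : j1 ≠ 0 ∨ j2 ≠ 0 := by
      by_contra hcon
      push Not at hcon
      exact hj' (by rw [hcon.1, hcon.2])
    simp only [sh] at h5
    rw [mem_ball] at hbx
    push_cast at hbx
    simp only at e1 e2
    omega
  · intro a b e he ho _ _ ha ha' _ _ ht
    obtain ⟨i, hi1, hi2⟩ := h.det he ho ht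
    by_cases h0 : i = (0, 0)
    · subst h0
      exact ha hi1
    · exact ha' ⟨i, h0, hi1⟩
  · intro a b e he ho _ _ ha ha' _ ht
    obtain ⟨i, hi1, hi2⟩ := h.det he ho ht
    by_cases h0 : i = (0, 0)
    · subst h0
      exact ha hi1
    · exact ha' ⟨i, h0, hi1⟩

theorem conn_sh {ζ : Config} (hp : PerInv N ζ) (j : ℤ × ℤ) {S : Set Vert} {T : Set Vert}
    (hST : ∀ v ∈ S, sh N j v ∈ T) {a b : Vert} (h : Conn ζ S a b) :
    Conn ζ T (sh N j a) (sh N j b) := by
  refine h.map (sh N j) hST ?_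
  intro e a b he ho
  exact ⟨_, joins_sh j he, by rw [per_sh hp]; exact ho⟩

/-- A winding path avoiding all the sausages crosses the strip. -/
theorem TD.strip (h : TD N k ζ X Y) {u v : Vert} (hc : Conn ζ {w | ∀ i, ¬ In N k X Y i w} u v)
    (huv : u.1 + 2 * N ≤ v.1) : HCross ζ (40 * k) (50 * k) (3 * k + 1) (N - 3 * k - 1) := by
  have hk := h.hk
  have hN : (128 * k : ℤ) ≤ N := by exact_mod_cast h.hN
  have hN0 : (0 : ℤ) < N := by omega
  -- the horizontal position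
  obtain ⟨m, hm⟩ : ∃ m : ℤ, m = (u.1 - 40 * k) / N + 1 := ⟨_, rfl⟩
  have hm1 : u.1 ≤ 40 * k + m * N := by
    have := Int.lt_ediv_add_one_mul_self (u.1 - 40 * k) hN0
    rw [← hm] at this
    omega
  have hm2 : 40 * k + m * N ≤ u.1 + N := by
    have := Int.ediv_mul_le (u.1 - 40 * k) hN0.ne'
    have e : m * N = (u.1 - 40 * k) / N * N + N := by rw [hm]; ring
    omega
  obtain ⟨u₁, v₁, hu₁, hv₁, hc₁, -, -⟩ := hc.cross_x (a := 40 * k + m * N) (b := 50 * k + m * N)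
    hm1 (by omega) (by omega)
  -- the vertical position
  have hC : ∀ (l : ℤ) (w : Vert), (∀ i, ¬ In N k X Y i w) → 40 * k + m * N ≤ w.1 →
      w.1 ≤ 50 * k + m * N → w.2 < l * N - 3 * k ∨ l * N + 3 * k < w.2 := by
    intro l w hw h1 h2
    by_contra hcon
    push Not at hcon
    refine hw (m, l) (Or.inr (Or.inl ?_))
    rw [mem_Cor]
    simp only [sh]
    omega
  obtain ⟨l, hl⟩ : ∃ l : ℤ, l = u₁.2 / N := ⟨_, rfl⟩
  have hl1 : l * N ≤ u₁.2 := by
    rw [hl]; exact Int.ediv_mul_le _ hN0.ne'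
  have hl2 : u₁.2 < (l + 1) * N := by
    rw [hl]; exact Int.lt_ediv_add_one_mul_self _ hN0
  have hl3 : (l + 1) * N = l * N + N := by ring
  have key : Conn ζ ({w | ∀ i, ¬ In N k X Y i w} ∩ {w | 40 * k + m * N ≤ w.1 ∧ w.1 ≤ 50 * k + m * N} ∩
      {w | l * N + 3 * k + 1 ≤ w.2 ∧ w.2 ≤ l * N + N - 3 * k - 1}) u₁ v₁ := by
    have h0 := hc₁.mem_left
    have a1 := hC l u₁ h0.1 h0.2.1 h0.2.2
    have a2 := hC (l + 1) u₁ h0.1 h0.2.1 h0.2.2
    refine hc₁.induction_right (P := fun w => Conn ζ _ u₁ w) (Conn.refl ⟨h0, ?_, ?_⟩) ?_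
    · omega
    · omega
    · intro p q h1 h2 h3
      have hp := h3.mem_right.2
      have hq := h2.2.1
      have hn := h2.snd_le
      have a3 := hC l q hq.1 hq.2.1 hq.2.2
      have a4 := hC (l + 1) q hq.1 hq.2.1 hq.2.2
      simp only [Set.mem_ofPred_eq] at hp
      refine h3.tail ⟨h3.mem_right, ⟨hq, ?_⟩, h2.2.2⟩
      simp only [Set.mem_ofPred_eq]
      omega
  refine ⟨sh N (m, l) u₁, sh N (m, l) v₁, ?_, ?_, ?_⟩
  · simp only [sh]; omega
  · simp only [sh]; omega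
  · refine conn_sh h.per (m, l) ?_ key
    rintro w ⟨⟨-, h1, h2⟩, h3, h4⟩
    simp only [sh, rect, Set.mem_ofPred_eq]
    omega

/-- No winding path. -/
theorem TD.not_wind (h : TD N k ζ X Y) {ρ K : ℕ} (hρ : 1 ≤ ρ) (hρk : 8 * ρ ≤ k) (hK : N ≤ K * ρ)
    (hle : ∀ e, ζ e = true → η e = true)
    (hH : η ∈ HT N k ρ K (X ∪ Y)) {u : Vert} {p q : ℤ} (hp : p ≠ 0) :
    ¬ Conn ζ Set.univ u (u.1 + p * N, u.2 + q * N) := by
  intro hc
  have hk := h.hk
  have hN : (128 * k : ℤ) ≤ N := by exact_mod_cast h.hN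
  have hsh : ∀ w : Vert, sh N (-p, -q) w = (w.1 + p * N, w.2 + q * N) := by
    intro w
    simp only [sh, Prod.mk.injEq]
    constructor <;> ring
  by_cases hU : ∃ w, Conn ζ Set.univ u w ∧ ∃ i, In N k X Y i w
  · obtain ⟨w, hw, i, hi⟩ := hU
    have h1 : Conn ζ Set.univ (sh N (-p, -q) u) (sh N (-p, -q) w) :=
      conn_sh h.per (-p, -q) (T := Set.univ) (fun _ _ => trivial) hw
    rw [hsh] at h1
    have h2 : Conn ζ Set.univ w (sh N (-p, -q) w) := (hw.symm.trans hc).trans h1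
    have h3 := conn_sh h.per i (T := Set.univ) (fun _ _ => trivial) h2
    have h4 : In N k X Y (p, q) (sh N i (sh N (-p, -q) w)) := by
      rw [in_sh, in_sh]
      have e : (p + i.1 + (-p, -q).1, q + i.2 + (-p, -q).2) = i :=
        Prod.ext (by simp only; ring) (by simp only; ring)
      simp only at e ⊢
      rw [e]
      exact hi
    have h5 := h.confine hρ hρk hK hle hH.1 (in_sh0.2 hi) h3 h4
    rw [Prod.mk.injEq] at h5
    exact hp h5.1
  · push Not at hU
    have h1 : Conn ζ {w | ∀ i, ¬ In N k X Y i w} u (u.1 + p * N, u.2 + q * N) := by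
      refine hc.induction_right (P := fun w => Conn ζ {w | ∀ i, ¬ In N k X Y i w} u w)
        (Conn.refl (hU u (Conn.refl trivial))) ?_
      intro w w' hw hs ih
      exact ih.tail ⟨ih.mem_right, hU w' (hw.tail hs), hs.2.2⟩
    have hinv : ∀ (j : ℤ × ℤ), ∀ v ∈ {w | ∀ i, ¬ In N k X Y i w},
        sh N j v ∈ {w | ∀ i, ¬ In N k X Y i w} := by
      intro j v hv i hi
      rw [in_sh] at hi
      exact hv _ hi
    have h2 := conn_sh h.per (-p, -q) (hinv _) h1
    have h3 := h1.trans (by rw [← hsh u] at h2 ⊢; exact h2)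
    have hX : ¬ HCross ζ (40 * k) (50 * k) (3 * k + 1) (N - 3 * k - 1) := by
      rintro ⟨a, b, h4, h5, h6⟩
      exact hH.2 ⟨a, b, h4, h5, h6.mono le_rfl hle⟩
    have e1 := mulN N p
    rcases lt_or_gt_of_ne hp with h0 | h0
    · refine hX (h.strip h3.symm ?_)
      simp only [sh]
      have e2 : -p * (N : ℤ) = -(p * N) := by ring
      rw [e2]
      omega
    · refine hX (h.strip h3 ?_)
      simp only [sh]
      have e2 : -p * (N : ℤ) = -(p * N) := by ring
      rw [e2]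
      omega

theorem zeta_cut {N : ℕ} {d : Bool} {s : Src} (hs : IsSrc s d) {ω : Config} {e : Edge}
    (h : per N (Function.update ω (0, 0, d) false) e = true) : s.cut (per N ω) e = true := by
  have hne : modE N e ≠ (0, 0, d) := by
    intro h1
    have h2 : per N (Function.update ω (0, 0, d) false) e =
        Function.update ω (0, 0, d) false (modE N e) := rfl
    rw [h2, h1, Function.update_self] at h
    exact absurd h (by simp)
  have h3 : per N ω e = true := by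
    have h2 : per N (Function.update ω (0, 0, d) false) e =
        Function.update ω (0, 0, d) false (modE N e) := rfl
    rw [h2, Function.update_of_ne hne] at h
    exact h
  unfold Src.cut
  rw [closeS_true]
  refine ⟨h3, ?_⟩
  rw [hs.E]
  intro h4
  rw [Finset.coe_singleton, Set.mem_singleton_iff] at h4
  refine hne ?_
  rw [h4]
  simp [modE]

theorem td_of_sep {d : Bool} {s : Src} (hs : IsSrc s d) (hk : 64 ≤ k) (hN : 128 * k ≤ N)
    {ω : Config} (h1 : per N ω ∈ Pool.Agent.H59.EX.Sep s .W .E k) :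
    TD N k (per N (Function.update ω (0, 0, d) false)) (FX s .W .E k (per N ω))
      (FY s .W .E k (per N ω)) := by
  obtain ⟨hx, hy, hxy, hmx, hmy⟩ := h1
  have hfill : ∀ (x : Vert) (Tt : Set Vert), Tt ⊆ T .W k ∪ T .E k →
      (∀ u ∈ Tt, ∀ v ∈ Tt, Conn allOpen Tt u v) →
      (∃ u ∈ Tt, Conn (s.cut (per N ω)) (dom .W .E k) x u) →
      Tt ⊆ clus (fillV (T .W k ∪ T .E k) (s.cut (per N ω))) (dom .W .E k) {x} := by
    rintro x Tt hT hcon ⟨u, hu, hc⟩ v hv
    rw [mem_clus_single]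
    refine (hc.mono le_rfl fun e he => ?_).trans (conn_fillV (fun w hw => Or.inr hw)
      ((hcon u hu v hv).mono_set hT))
    rw [fillV_true]
    exact Or.inl he
  refine ⟨hk, hN, perInv_per _ _, clus_sub, clus_sub, ?_, ?_, ?_, ?_, ?_, ?_, ?_⟩
  · exact hfill s.x _ Set.subset_union_left (fun u hu v hv => conn_rect hu hv) (fence_mem hx)
  · exact hfill s.y _ Set.subset_union_right (fun u hu v hv => conn_rect hu hv) (fence_mem hy)
  · intro v hv hv'
    unfold FX at hv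
    unfold FY at hv'
    rw [mem_clus_single] at hv hv'
    exact hxy (hv.trans hv'.symm)
  · intro a ha b hb e he ho
    refine clus_step ha ⟨clus_sub ha, hb, e, he, ?_⟩
    rw [fillV_true]
    exact Or.inl (zeta_cut hs ho)
  · intro a ha b hb e he ho
    refine clus_step ha ⟨clus_sub ha, hb, e, he, ?_⟩
    rw [fillV_true]
    exact Or.inl (zeta_cut hs ho)
  · intro v hv hv'
    exact hmx v hv' (mem_clus_single.1 hv)
  · intro v hv hv'
    exact hmy v hv' (mem_clus_single.1 hv)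

theorem closed_not_wind {N k ρ K : ℕ} {d : Bool} {s : Src} (hs : IsSrc s d) (hk : 64 ≤ k)
    (hN : 128 * k ≤ N) (hρ : 1 ≤ ρ) (hρk : 8 * ρ ≤ k) (hK : N ≤ K * ρ) {ω : Config}
    (h1 : per N ω ∈ Pool.Agent.H59.EX.Sep s .W .E k)
    (h3 : per N ω ∈ HT N k ρ K (FX s .W .E k (per N ω) ∪ FY s .W .E k (per N ω))) :
    Function.update ω (0, 0, d) false ∉ Wind N := by
  rintro ⟨u, p, q, hp, hc⟩
  exact (td_of_sep hs hk hN h1).not_wind hρ hρk hK (fun e he => cut_le (zeta_cut hs he)) h3 hp hc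

end Pool.Agent.H26.ST
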