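import Pool.Agent.H83.EX.CorrE
import Pool.Agent.H59.EX.Fact
import Pool.Agent.H59.EX.SealProb
import Pool.Agent.H29.Sep.Iface

/-!
# Separated four arms on the torus: definitions

The torus of side `N` is `ℤ²` with the periodic configuration `per N ω = pb (modE N) ω`.  The source
edge is `(0, 0, d)`; the first point `(0, 0)` has its mouth in the west, the second point in the
east.  The corridor is the horizontal strip `[28 k, N - 28 k] × [-3 k, 3 k]` from the east target to
the translate by `(N, 0)` of the west target.
-/

open MeasureTheory ProbabilityTheory unitInterval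

namespace Pool.Agent.H26.ST

open Pool.Agent.H89.Perc Pool.Agent.H61.NC Pool.Agent.H59.EX

/-- `s` is the source given by the edge `(0, 0, d)`. -/
structure IsSrc (s : Src) (d : Bool) : Prop where
  x : s.x = (0, 0)
  y : s.y = tgt (0, 0, d)
  E : s.E0 = {(0, 0, d)}

/-- The corridor. -/
def Cor (N k : ℕ) : Set Vert := rect (28 * k) (N - 28 * k) (-(3 * k)) (3 * k)

/-- The edges of the corridor: those of the strip left of the translated west target, and those of
the west target. -/
def EC (N k : ℕ) : Set Edge := {e | (e ∈ inE (Cor N k) ∧ e.1 < N - 36 * k) ∨ e ∈ inE (T .W k)}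

/-- Read the edges with `x ≥ N - 36 k` at the place shifted by `(-N, 0)`. -/
noncomputable def glu (N k : ℕ) (η : Config) : Config :=
  fun e => if e.1 < N - 36 * k then η e else η (e.1 - N, e.2.1, e.2.2)

/-- The corridor is crossed. -/
def NpT (N k : ℕ) : Set Config := {η | HCross (glu N k η) (28 * k) (N - 28 * k) (-(3 * k)) (3 * k)}

/-- A vertical strip off the corridor is not crossed. -/
def NoX (N k : ℕ) : Set Config := {η | ¬ HCross η (40 * k) (50 * k) (3 * k + 1) (N - 3 * k - 1)}

/-- Seals and a closed vertical strip. -/
def HT (N k ρ K : ℕ) (S : Set Vert) : Set Config :=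
  Seal (grid ρ K) ρ (detE (modE N) .W .E k (EC N k) S) ∩ NoX N k

theorem pb_modE (N : ℕ) (ω : Config) : pb (modE N) ω = per N ω := rfl

end Pool.Agent.H26.ST
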