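import Pool.Agent.H61.NC.TSym
import Pool.Agent.H89.Perc.TorusSym

/-!
# Lower bounds for the influence of an edge of the torus
-/

open MeasureTheory ProbabilityTheory unitInterval

namespace Pool.Agent.H26.ST

open Pool.Agent.H89.Perc Pool.Agent.H61.NC

theorem le_sT {N : ℕ} (hN : 1 ≤ N) {q : I} {d : Bool} {E : Set Config}
    (hE : ∀ ω ∈ E, Function.update ω (0, 0, d) true ∈ Wind N ∧
      Function.update ω (0, 0, d) false ∉ Wind N) : Pr q E ≤ sT q N d := by
  have h0 : ((0, 0, d) : Edge) ∈ tEdges N := by
    simp only [tEdges, Finset.mem_product, Finset.mem_Ico, Finset.mem_univ, and_true]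
    omega
  have h1 : sT q N d = pivot q (Wind N) (0, 0, d) := pivot_wind hN q (ctr_mem hN d) h0 rfl
  rw [h1]
  have hl : ∀ b : Bool, LocalOn (tEdges N) {ω | Function.update ω (0, 0, d) b ∈ Wind N} := by
    intro b ω ω' hω h2
    refine localOn_wind hN _ _ (fun f hf => ?_) h2
    by_cases hfe : f = (0, 0, d)
    · subst hfe; simp
    · simp only [Function.update_of_ne hfe]; exact hω f hf
  have hsub : {ω | Function.update ω (0, 0, d) false ∈ Wind N} ⊆
      {ω | Function.update ω (0, 0, d) true ∈ Wind N} := by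
    intro ω hω
    refine incr_wind N _ _ ?_ hω
    intro e he
    by_cases h : e = (0, 0, d)
    · subst h; simp
    · rw [Function.update_of_ne h] at he ⊢
      exact he
  have h2 : Pr q ({ω | Function.update ω (0, 0, d) true ∈ Wind N} \
      {ω | Function.update ω (0, 0, d) false ∈ Wind N}) = pivot q (Wind N) (0, 0, d) :=
    measureReal_sdiff hsub (hl false).measurableSet
  rw [← h2]
  exact Pr_mono fun ω hω => ⟨(hE ω hω).1, (hE ω hω).2⟩

end Pool.Agent.H26.ST
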