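import Pool.Agent.H26.ST.Prob
import Pool.Agent.H26.ST.Closed
import Pool.Agent.H26.ST.Piv

/-!
# A separated four-arm event costs at most a pivotal edge of the torus
-/

open MeasureTheory ProbabilityTheory unitInterval

namespace Pool.Agent.H26.ST

open Pool.Agent.H89.Perc Pool.Agent.H61.NC Pool.Agent.H59.EX

/-- `K₁` is any constant. -/
theorem torus_ext (c : ℝ) (hc : 0 < c) (K₁ : ℕ) : ∃ C : ℝ, 0 < C ∧ ∀ (N k : ℕ) (q : I) (d : Bool)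
    (s : Src), IsSrc s d → 64 ≤ k → 128 * k ≤ N → N ≤ K₁ * k → RSWreg c N q →
      Pr q (Pool.Agent.H59.EX.Sep s .W .E k) ≤ C * sT q N d := by
  obtain ⟨c₁, hc₁, H1⟩ := NpT_lower c hc K₁
  obtain ⟨c₂, hc₂, H2⟩ := HT_lower c hc K₁ (16 * K₁)
  refine ⟨1 / (c₁ * c₂), by positivity, ?_⟩
  intro N k q d s hs hk hN hN₁ hreg
  obtain ⟨ρ, hρ⟩ : ∃ ρ : ℕ, ρ = k / 8 := ⟨_, rfl⟩
  have hρ1 : 1 ≤ ρ := by omega
  have hρk : 8 * ρ ≤ k := by omega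
  have hkρ : k ≤ 16 * ρ := by omega
  have hK : N ≤ 16 * K₁ * ρ := by
    calc N ≤ K₁ * k := hN₁
      _ ≤ K₁ * (16 * ρ) := Nat.mul_le_mul_left _ hkρ
      _ = 16 * K₁ * ρ := by ring
  have key := corridor_probE (q := q) (π := modE N) (s := s) (d := .W) (d' := .E) (k := k)
    (EC := EC N k) (Np := NpT N k) (H := HT N k ρ (16 * K₁)) (c₁ := c₁) (c₂ := c₂) hc₂.le
    (injOn_modE hk hN) (TW_sub N k) (TE_sub hk hN) (EC_inter hk hN) (EC_finite N k)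
    (locS_NpT hk hN) (incr_NpT N k) (H1 N k q hk hN hN₁ hreg) (locS_HT hk hN)
    (localOn_HT N k ρ (16 * K₁)) (fun S => H2 N k ρ q S hk hN hN₁ hρ1 hρk hreg)
  have h3 : Pr q {ω | pb (modE N) ω ∈ Pool.Agent.H59.EX.Sep s .W .E k ∧ pb (modE N) ω ∈ NpT N k ∧
      pb (modE N) ω ∈ HT N k ρ (16 * K₁) (FX s .W .E k (pb (modE N) ω) ∪
        FY s .W .E k (pb (modE N) ω))} ≤ sT q N d := by
    refine le_sT (by omega) ?_
    rintro ω ⟨h4, h5, h6⟩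
    exact ⟨open_wind hs hk hN h4 h5, closed_not_wind hs hk hN hρ1 hρk hK h4 h6⟩
  have h7 := key.trans h3
  rw [div_mul_eq_mul_div, one_mul, le_div_iff₀ (by positivity)]
  calc Pr q (Pool.Agent.H59.EX.Sep s .W .E k) * (c₁ * c₂)
      = c₁ * c₂ * Pr q (Pool.Agent.H59.EX.Sep s .W .E k) := by ring
    _ ≤ _ := h7

end Pool.Agent.H26.ST
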