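import Pool.Agent.H26.ST.Defs
import Pool.Agent.H29.Sep.A4Low

/-!
# Small tori
-/

open MeasureTheory ProbabilityTheory unitInterval

namespace Pool.Agent.H26.ST

open Pool.Agent.H89.Perc Pool.Agent.H61.NC Pool.Agent.H59.EX

/-- The explicit configuration (the edge `(0, 0, d)` is closed). -/
private def smB (d : Bool) : Config := fun e =>
  decide ((e.2.2 = false ∧ e.2.1 = 0 ∧ e.1 ≠ 0) ∨
    (d = true ∧ (e = (1, 0, true) ∨ e = (0, 1, false))))

/-- The sheet of a vertex. -/
private def smI (N : ℕ) (v : Vert) : ℤ := if v.2 % N = 0 then (v.1 - 1) / N else v.1 / N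

private theorem smI_shift {N : ℕ} (hN : 2 ≤ N) (v : Vert) (a b : ℤ) :
    smI N (v.1 + a * N, v.2 + b * N) = smI N v + a := by
  have hN' : (N : ℤ) ≠ 0 := by omega
  unfold smI
  simp only [Int.add_mul_emod_self_right]
  split_ifs
  · rw [show v.1 + a * N - 1 = v.1 - 1 + a * N by ring, Int.add_mul_ediv_right _ _ hN']
  · rw [Int.add_mul_ediv_right _ _ hN']

private theorem div_eq {N x : ℤ} (hN : 0 < N) (h : (x + 1) % N ≠ 0) : x / N = (x + 1) / N := by
  have h1 := Int.emod_add_mul_ediv (x + 1) N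
  have h2 := Int.emod_nonneg (x + 1) hN.ne'
  have h3 := Int.emod_lt_of_pos (x + 1) hN
  exact ((Int.ediv_emod_unique (r := (x + 1) % N - 1) hN).2
    ⟨by linarith, by omega, by omega⟩).1

private theorem smB_step {N : ℕ} (hN : 2 ≤ N) {d : Bool} {e : Edge}
    (he : per N (smB d) e = true) : smI N (src e) = smI N (tgt e) := by
  have hN0 : (0 : ℤ) < N := by omega
  have hN2 : (2 : ℤ) ≤ N := by omega
  obtain ⟨x, y, t⟩ := e
  simp only [per, smB, decide_eq_true_eq] at he
  rcases he with ⟨h1, h2, h3⟩ | ⟨-, h | h⟩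
  · subst h1
    simp only [smI, src, tgt, h2, if_true, Bool.false_eq_true, if_false]
    have := div_eq (x := x - 1) hN0 (by rwa [sub_add_cancel])
    rw [this]
    congr 1
    ring
  · simp only [Prod.mk.injEq] at h
    obtain ⟨h1, h2, h3⟩ := h
    subst h3
    have h4 : (y + 1) % (N : ℤ) ≠ 0 := by
      rw [Int.add_emod, h2, zero_add, Int.emod_emod_of_dvd _ (dvd_refl _),
        Int.emod_eq_of_lt (by norm_num) (by omega)]
      norm_num
    simp only [smI, src, tgt, h2, if_true, h4, if_false]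
    have := div_eq (x := x - 1) hN0 (by rw [sub_add_cancel, h1]; norm_num)
    rw [this, sub_add_cancel]
  · simp only [Prod.mk.injEq] at h
    obtain ⟨h1, h2, h3⟩ := h
    subst h3
    simp only [smI, src, tgt, Bool.false_eq_true, if_false, h2, one_ne_zero]
    refine div_eq (x := x) hN0 ?_
    rw [Int.add_emod, h1, zero_add, Int.emod_emod_of_dvd _ (dvd_refl _),
      Int.emod_eq_of_lt (by norm_num) (by omega)]
    norm_num

private theorem smB_not {N : ℕ} (hN : 2 ≤ N) (d : Bool) : smB d ∉ Wind N := by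
  rintro ⟨u, a, b, ha, hc⟩
  have key : ∀ v, Conn (per N (smB d)) Set.univ u v → smI N u = smI N v := by
    intro v hv
    refine hv.induction_right (P := fun v => smI N u = smI N v) rfl ?_
    rintro x y _ ⟨-, -, e, hj, ho⟩ ih
    rw [ih]
    have := smB_step hN ho
    rcases hj with ⟨h1, h2⟩ | ⟨h1, h2⟩
    · rw [h1, h2]
      exact this
    · rw [h1, h2]
      exact this.symm
  have h1 := key _ hc
  rw [smI_shift hN] at h1
  omega

private theorem smB_line {N : ℕ} {d : Bool} {ω : Config}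
    (hω : ∀ e, smB d e = true → ω e = true) (j : ℕ) (h1 : 1 ≤ j) (h2 : j ≤ N) :
    Conn (per N ω) Set.univ ((1 : ℤ), (0 : ℤ)) ((j : ℤ), (0 : ℤ)) := by
  induction j, h1 using Nat.le_induction with
  | base => exact Conn.refl trivial
  | succ j hj ih =>
    refine (ih (by omega)).tail ⟨trivial, trivial, ((j : ℤ), 0, false), Or.inl ⟨rfl, ?_⟩, hω _ ?_⟩
    · simp [tgt]
    · simp only [smB, decide_eq_true_eq, Int.zero_emod]
      left
      refine ⟨trivial, trivial, ?_⟩
      rw [Int.emod_eq_of_lt (by omega) (by omega)]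
      omega

private theorem smB_wind {N : ℕ} (hN : 2 ≤ N) (d : Bool) :
    Function.update (smB d) (0, 0, d) true ∈ Wind N := by
  obtain ⟨ω, hω⟩ : ∃ ω : Config, ω = Function.update (smB d) (0, 0, d) true := ⟨_, rfl⟩
  rw [← hω]
  have hle : ∀ e, smB d e = true → ω e = true := by
    intro e he
    rw [hω, Function.update_apply]
    split_ifs
    · rfl
    · exact he
  have h0 : per N ω (0, 0, d) = true := by
    simp only [per, Int.zero_emod]
    rw [hω, Function.update_self]
  have hmod : (1 : ℤ) % N = 1 := Int.emod_eq_of_lt (by norm_num) (by omega)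
  have k1 := smB_line (N := N) hle N (by omega) le_rfl
  refine ⟨(0, 0), 1, 0, one_ne_zero, ?_⟩
  have e1 : ((((0 : ℤ), (0 : ℤ)) : Vert).1 + 1 * (N : ℤ), (((0 : ℤ), (0 : ℤ)) : Vert).2 +
      0 * (N : ℤ)) = ((N : ℤ), (0 : ℤ)) := by
    simp
  rw [e1]
  refine Conn.trans ?_ k1
  cases d
  · exact Step.conn ⟨trivial, trivial, (0, 0, false), Or.inl ⟨rfl, rfl⟩, h0⟩
  · have c1 : Conn (per N ω) Set.univ ((0 : ℤ), (0 : ℤ)) ((0 : ℤ), (1 : ℤ)) :=
      Step.conn ⟨trivial, trivial, (0, 0, true), Or.inl ⟨rfl, rfl⟩, h0⟩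
    have c2 : Conn (per N ω) Set.univ ((0 : ℤ), (1 : ℤ)) ((1 : ℤ), (1 : ℤ)) := by
      refine Step.conn ⟨trivial, trivial, (0, 1, false), Or.inl ⟨rfl, rfl⟩, hle _ ?_⟩
      simp [smB, hmod]
    have c3 : Conn (per N ω) Set.univ ((1 : ℤ), (1 : ℤ)) ((1 : ℤ), (0 : ℤ)) := by
      refine Step.conn ⟨trivial, trivial, (1, 0, true), Or.inr ⟨rfl, rfl⟩, hle _ ?_⟩
      simp [smB, hmod]
    exact (c1.trans c2).trans c3

private theorem smB_closed (d : Bool) : Function.update (smB d) (0, 0, d) false = smB d := by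
  refine Function.update_eq_self_iff.2 ?_
  cases d <;> simp [smB]

private theorem pivot_ge {N : ℕ} (hN : 2 ≤ N) (q : I) (d : Bool) {t : ℝ} (ht : 0 ≤ t)
    (h1 : t ≤ (q : ℝ)) (h2 : (q : ℝ) ≤ 1 - t) :
    t ^ (tEdges N).card ≤ pivot q (Wind N) (0, 0, d) := by
  have hloc : LocalOn (tEdges N) {ω : Config | ∀ e ∈ tEdges N, ω e = smB d e} := by
    intro ω ω' h hω e he
    rw [← h e he]
    exact hω e he
  have hE := Pool.Agent.H29.Sep.a4Low_cyl q ht h1 h2 (smB d) (tEdges N)
  have hup : ∀ (ω : Config) (b : Bool), (∀ e ∈ tEdges N, ω e = smB d e) → ∀ e ∈ tEdges N,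
      Function.update ω (0, 0, d) b e = Function.update (smB d) (0, 0, d) b e := by
    intro ω b h e he
    rw [Function.update_apply, Function.update_apply]
    split_ifs
    · rfl
    · exact h e he
  have hW := localOn_wind (N := N) (by omega)
  have hsub1 : {ω : Config | Function.update ω (0, 0, d) false ∈ Wind N} ∪
      {ω : Config | ∀ e ∈ tEdges N, ω e = smB d e} ⊆
      {ω | Function.update ω (0, 0, d) true ∈ Wind N} := by
    rintro ω (h | h)
    · refine incr_wind N _ _ (fun e he => ?_) h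
      rw [Function.update_apply] at he ⊢
      split_ifs at he ⊢
      exact he
    · exact hW _ _ (fun e he => (hup ω true h e he).symm) (smB_wind hN d)
  have hdisj : Disjoint {ω : Config | Function.update ω (0, 0, d) false ∈ Wind N}
      {ω : Config | ∀ e ∈ tEdges N, ω e = smB d e} := by
    rw [Set.disjoint_left]
    intro ω h h'
    have := hW _ _ (fun e he => hup ω false h' e he) h
    rw [smB_closed] at this
    exact smB_not hN d this
  have h3 : Pr q ({ω : Config | Function.update ω (0, 0, d) false ∈ Wind N} ∪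
      {ω : Config | ∀ e ∈ tEdges N, ω e = smB d e}) =
      Pr q {ω : Config | Function.update ω (0, 0, d) false ∈ Wind N} +
        Pr q {ω : Config | ∀ e ∈ tEdges N, ω e = smB d e} :=
    measureReal_union hdisj hloc.measurableSet
  have h4 := Pr_mono (p := q) hsub1
  rw [h3] at h4
  unfold pivot
  linarith

/-- Small tori: finite energy. -/
theorem sT_small (c : ℝ) (hc : 0 < c) (N₀ : ℕ) : ∃ c' : ℝ, 0 < c' ∧ ∀ (N : ℕ) (q : I) (d : Bool),
    2 ≤ N → N ≤ N₀ → RSWreg c N q → c' ≤ sT q N d := by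
  refine ⟨(min (c / 16) 1) ^ (N₀ * (N₀ * 2)), by positivity, ?_⟩
  intro N q d hN hN0 hreg
  obtain ⟨h1, h2⟩ := Pool.Agent.H29.Sep.rswreg_density (by omega : 1 ≤ N) hreg
  set t : ℝ := min (c / 16) 1 with ht
  have ht0 : 0 < t := by positivity
  have ht1 : t ≤ 1 := min_le_right _ _
  have ht2 : t ≤ c / 16 := min_le_left _ _
  have hcard : (tEdges N).card ≤ N₀ * (N₀ * 2) := by
    have : (tEdges N).card = N * (N * 2) := by
      simp [tEdges]
    rw [this]
    exact Nat.mul_le_mul hN0 (Nat.mul_le_mul_right 2 hN0)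
  have h3 := pivot_ge hN q d ht0.le (ht2.trans h1) (by linarith)
  have h4 : t ^ (N₀ * (N₀ * 2)) ≤ t ^ (tEdges N).card := pow_le_pow_of_le_one ht0.le ht1 hcard
  refine (h4.trans h3).trans (le_of_eq ?_)
  unfold sT ctr
  have hmid : (0 : ℤ) ≤ mid N ∧ mid N < N := by
    unfold mid
    omega
  refine pivot_wind (by omega) q ?_ ?_ rfl
  · simp [tEdges]
    omega
  · simp [tEdges]
    omega

end Pool.Agent.H26.ST
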