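import Pool.Agent.H26.ST.Ext
import Pool.Agent.H26.ST.Small
import Pool.Agent.H59.EX.Iter
import Pool.Agent.H29.Sep.A4Low
import Pool.Agent.H26.HP.Bad

/-!
# `SepTorus`
-/

open MeasureTheory ProbabilityTheory unitInterval

namespace Pool.Agent.H26.ST

open Pool.Agent.H89.Perc Pool.Agent.H61.NC Pool.Agent.H59.EX
open Pool.Agent.H29.Sep (BadIn SepTorus)

theorem isSrc_sE (d : Bool) : IsSrc (sE d) d := ⟨rfl, rfl, rfl⟩

/-- **Four arms at scale `N / 64` cost at most a pivotal edge of the torus.** -/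
theorem sepTorus (hB : BadIn) : SepTorus := by
  intro c hc
  obtain ⟨C₁, hC₁, H1⟩ := torus_ext c hc 512
  obtain ⟨C₂, r₂, hC₂, H2⟩ := four_le_sep hB (fun k hk => sep_sE_nonempty false hk) c hc
  obtain ⟨C₃, r₃, hC₃, H3⟩ := four_le_sep hB (fun k hk => sep_sE_nonempty true hk) c hc
  obtain ⟨c₄, hc₄, H4⟩ := sT_small c hc (16384 * (r₂ + r₃ + 1))
  refine ⟨(C₂ + C₃) * C₁ + 1 / c₄, by positivity, ?_⟩
  intro N r q d hr h1 h2 hreg
  have hs0 : 0 ≤ sT q N d := sT_nonneg q N d
  rcases Nat.lt_or_ge (16384 * (r₂ + r₃ + 1)) N with hN | hN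
  · obtain ⟨r', hr'⟩ : ∃ r' : ℕ, r' = N / 16384 := ⟨_, rfl⟩
    have e1 : r₂ + r₃ + 1 ≤ r' := by omega
    have e2 : r' ≤ r := by omega
    have e3 : a4 q r ≤ a4 q r' := Pool.Agent.H29.Sep.a4_anti (by omega) e2
    have key : a4 q r' ≤ (C₂ + C₃) * C₁ * sT q N d := by
      cases d
      · obtain ⟨k, hk1, hk2, hk3⟩ := H2 N r' q .W .E (by decide) (by omega) (by omega) hreg
        rw [a4_eq_four false]
        have h4 := H1 N k q false (sE false) (isSrc_sE false) (by omega) (by omega) (by omega) hreg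
        calc Pr q (Four (sE false) r') ≤ C₂ * Pr q (Pool.Agent.H59.EX.Sep (sE false) .W .E k) := hk3
          _ ≤ C₂ * (C₁ * sT q N false) := mul_le_mul_of_nonneg_left h4 hC₂.le
          _ ≤ (C₂ + C₃) * C₁ * sT q N false := by
            rw [← mul_assoc]
            refine mul_le_mul_of_nonneg_right ?_ hs0
            exact mul_le_mul_of_nonneg_right (by linarith) hC₁.le
      · obtain ⟨k, hk1, hk2, hk3⟩ := H3 N r' q .W .E (by decide) (by omega) (by omega) hreg
        rw [a4_eq_four true]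
        have h4 := H1 N k q true (sE true) (isSrc_sE true) (by omega) (by omega) (by omega) hreg
        calc Pr q (Four (sE true) r') ≤ C₃ * Pr q (Pool.Agent.H59.EX.Sep (sE true) .W .E k) := hk3
          _ ≤ C₃ * (C₁ * sT q N true) := mul_le_mul_of_nonneg_left h4 hC₃.le
          _ ≤ (C₂ + C₃) * C₁ * sT q N true := by
            rw [← mul_assoc]
            refine mul_le_mul_of_nonneg_right ?_ hs0
            exact mul_le_mul_of_nonneg_right (by linarith) hC₁.le
    refine (e3.trans key).trans (mul_le_mul_of_nonneg_right ?_ hs0)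
    have : 0 ≤ 1 / c₄ := by positivity
    linarith
  · have h5 := H4 N q d (by omega) hN hreg
    have h6 : a4 q r ≤ 1 := Pool.Agent.H29.Sep.a4_le_one q r
    have h7 : (1 : ℝ) ≤ 1 / c₄ * sT q N d := by
      rw [div_mul_eq_mul_div, one_mul, le_div_iff₀ hc₄, one_mul]
      exact h5
    have h8 : 0 ≤ (C₂ + C₃) * C₁ * sT q N d := by positivity
    calc a4 q r ≤ 1 := h6
      _ ≤ 1 / c₄ * sT q N d := h7
      _ ≤ ((C₂ + C₃) * C₁ + 1 / c₄) * sT q N d := by rw [add_mul]; linarith

theorem sepTorus_holds : SepTorus := sepTorus Pool.Agent.H26.HP.badIn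

end Pool.Agent.H26.ST
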