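import Pool.Agent.H26.ST.Defs
import Pool.Agent.H85.Strict.Corr

/-!
# With the source edge open there is a winding path
-/

open MeasureTheory ProbabilityTheory unitInterval

namespace Pool.Agent.H26.ST

open Pool.Agent.H89.Perc Pool.Agent.H61.NC Pool.Agent.H59.EX

theorem glu_per (N k : ℕ) (ω : Config) : glu N k (per N ω) = per N ω := by
  funext e
  unfold glu
  split_ifs with h
  · rfl
  · simp only [per, Int.sub_emod_right]

private theorem per_x (N : ℕ) (ω : Config) (e : Edge) :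
    per N ω (shiftE ((N : ℤ), 0) e) = per N ω e := by
  obtain ⟨a, b, t⟩ := e
  simp only [per, shiftE, Int.add_emod_right, add_zero]

private theorem conn_x {N : ℕ} {ω : Config} {S S' : Set Vert}
    (hS : ∀ w ∈ S, ((w.1 + N, w.2) : Vert) ∈ S') {u v : Vert} (h : Conn (per N ω) S u v) :
    Conn (per N ω) S' (u.1 + N, u.2) (v.1 + N, v.2) := by
  refine h.map (fun w => (w.1 + N, w.2)) hS ?_
  intro e a b hj ho
  refine ⟨shiftE ((N : ℤ), 0) e, ?_, ?_⟩
  · have := joins_shift ((N : ℤ), 0) hj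
    simpa using this
  · rw [per_x]
    exact ho

/-- The path `x - y - T E - corridor - T W + (N, 0) - x + (N, 0)`. -/
theorem open_wind {N k : ℕ} {d : Bool} {s : Src} (hs : IsSrc s d) (hk : 64 ≤ k)
    (hN : 128 * k ≤ N) {ω : Config} (h1 : per N ω ∈ Pool.Agent.H59.EX.Sep s .W .E k)
    (h2 : per N ω ∈ NpT N k) : Function.update ω (0, 0, d) true ∈ Wind N := by
  obtain ⟨ω', hω'⟩ : ∃ ω' : Config, ω' = Function.update ω (0, 0, d) true := ⟨_, rfl⟩
  rw [← hω']
  have hk' : (64 : ℤ) ≤ k := by exact_mod_cast hk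
  have hN' : 128 * (k : ℤ) ≤ N := by exact_mod_cast hN
  have hle0 : ∀ e, ω e = true → ω' e = true := by
    intro e he
    rw [hω', Function.update_apply]
    split_ifs
    · rfl
    · exact he
  have hle : ∀ e, per N ω e = true → per N ω' e = true := fun e he => hle0 _ he
  have hcut : ∀ e, s.cut (per N ω) e = true → per N ω' e = true := fun e he => hle e (cut_le he)
  obtain ⟨⟨uW, vW, pW, qW, cW, dW⟩, ⟨uE, vE, pE, qE, cE, dE⟩, -⟩ := h1
  obtain ⟨u, v, p, q, c⟩ : HCross (glu N k (per N ω)) (28 * k) (N - 28 * k) (-(3 * k)) (3 * k) := h2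
  rw [glu_per] at c
  have c1 := c.mono le_rfl hle
  have cE1 : Conn (per N ω') (rect (28 * k) (36 * k) (-(3 * k)) (3 * k)) uE vE :=
    Conn.mono le_rfl hcut cE
  have cW1 : Conn (per N ω') (rect (-(36 * k)) (-(28 * k)) (-(3 * k)) (3 * k)) uW vW :=
    Conn.mono le_rfl hcut cW
  have cW2 := conn_x (S' := rect (N - 36 * k) (N - 28 * k) (-(3 * k)) (3 * k)) (fun w hw => by
    simp only [rect, Set.mem_ofPred_eq] at hw ⊢
    omega) cW1
  obtain ⟨z1, a1, b1⟩ := Pool.Agent.H85.Strict.hv_meet c1 (by omega) (by omega) cE1 (by omega)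
    (by omega) (by omega) (by omega)
  obtain ⟨z2, a2, b2⟩ := Pool.Agent.H85.Strict.hv_meet c1 (by omega) (by omega) cW2
    (by simp only; omega) (by simp only; omega) (by omega) (by omega)
  have sub : ∀ S : Set Vert, S ⊆ Set.univ := fun S => Set.subset_univ S
  -- the source edge
  have hxy : Conn (per N ω') Set.univ s.x s.y := by
    refine Step.conn ⟨trivial, trivial, (0, 0, d), ?_, ?_⟩
    · rw [hs.x, hs.y]
      exact Or.inl ⟨rfl, rfl⟩
    · simp only [per, Int.zero_emod]
      rw [hω', Function.update_self]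
  have k1 : Conn (per N ω') Set.univ s.y uE := Conn.mono (sub _) hcut dE
  have k2 : Conn (per N ω') Set.univ uE (uW.1 + N, uW.2) :=
    (((b1.mono_set (sub _)).trans (a1.mono_set (sub _)).symm).trans
      (a2.mono_set (sub _))).trans (b2.mono_set (sub _)).symm
  have k3 : Conn (per N ω') Set.univ s.x uW := Conn.mono (sub _) hcut dW
  have k4 := conn_x (S' := Set.univ) (fun _ _ => trivial) k3
  refine ⟨s.x, 1, 0, one_ne_zero, ?_⟩
  have e1 : ((s.x.1 + 1 * (N : ℤ), s.x.2 + 0 * (N : ℤ)) : Vert) = (s.x.1 + N, s.x.2) := by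
    rw [one_mul, zero_mul, add_zero]
  rw [e1]
  exact ((hxy.trans k1).trans k2).trans k4.symm

end Pool.Agent.H26.ST
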