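import Pool.Agent.H26.ST.Open

/-!
# Probabilities of the corridor event and of the seals; locality
-/

open MeasureTheory ProbabilityTheory unitInterval

namespace Pool.Agent.H26.ST

open Pool.Agent.H89.Perc Pool.Agent.H61.NC Pool.Agent.H59.EX

private lemma mod_eq' {N : ℕ} {x y : ℤ} (h1 : x - y < N) (h2 : y - x < N)
    (h : x % N = y % N) : x = y := by
  have hd : (N : ℤ) ∣ x - y := Int.ModEq.dvd (Int.ModEq.symm h)
  have : x - y = 0 := by
    apply Int.eq_zero_of_abs_lt_dvd hd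
    rw [abs_lt]
    omega
  omega

private lemma conn_congr_on {ω ω' : Config} {D : Set Vert} {u v : Vert}
    (h : ∀ e ∈ inE D, ω e = true → ω' e = true) (hc : Conn ω D u v) : Conn ω' D u v := by
  refine ⟨hc.1, Relation.ReflTransGen.mono ?_ _ _ hc.2⟩
  rintro a b ⟨ha, hb, e, hj, ho⟩
  exact ⟨ha, hb, e, hj, h e ((inE_of_joins hj).2 ⟨ha, hb⟩) ho⟩

private lemma hcross_congr {ω ω' : Config} {a b c d : ℤ}
    (h : ∀ e ∈ inE (rect a b c d), ω e = true → ω' e = true) (hc : HCross ω a b c d) :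
    HCross ω' a b c d := by
  obtain ⟨u, v, hu, hv, hc⟩ := hc
  exact ⟨u, v, hu, hv, conn_congr_on h hc⟩

private lemma mem_inE_rect {a b c d : ℤ} {e : Edge} : e ∈ inE (rect a b c d) ↔
    (a ≤ e.1 ∧ c ≤ e.2.1) ∧ (e.2.2 = true → e.1 ≤ b ∧ e.2.1 + 1 ≤ d) ∧
      (e.2.2 = false → e.1 + 1 ≤ b ∧ e.2.1 ≤ d) := by
  obtain ⟨x, y, t⟩ := e
  cases t
  · simp only [inE, rect, src, tgt, Set.mem_ofPred_eq, Bool.false_eq_true, if_false, false_imp_iff,
      true_and, forall_const]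
    omega
  · simp only [inE, rect, src, tgt, Set.mem_ofPred_eq, if_true, forall_const]
    simp only [Bool.true_eq_false, false_imp_iff, and_true]
    omega

private lemma mem_dom {k : ℕ} {v : Vert} (h : v ∈ dom .W .E k) :
    -(36 * (k : ℤ)) ≤ v.1 ∧ v.1 ≤ 36 * k ∧ -(32 * (k : ℤ)) ≤ v.2 ∧ v.2 ≤ 32 * k ∧
      (32 * (k : ℤ) < |v.1| → -(3 * (k : ℤ)) ≤ v.2 ∧ v.2 ≤ 3 * k) := by
  simp only [dom, T, ball, rect, Set.mem_union, Set.mem_ofPred_eq, Prod.fst_zero,
    Prod.snd_zero] at h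
  push_cast at h
  rcases abs_cases v.1 with h1 | h1 <;> omega

private lemma EC_bounds {N k : ℕ} (hk : 64 ≤ k) (hN : 128 * k ≤ N) {e : Edge} (he : e ∈ EC N k) :
    -(36 * (k : ℤ)) ≤ e.1 ∧ e.1 < N - 36 * k ∧ -(3 * (k : ℤ)) ≤ e.2.1 ∧ e.2.1 ≤ 3 * k := by
  have hN' : 128 * (k : ℤ) ≤ N := by exact_mod_cast hN
  rcases he with ⟨⟨h1, -⟩, h2⟩ | ⟨h1, -⟩
  · simp only [Cor, rect, src, Set.mem_ofPred_eq] at h1
    omega
  · simp only [T, rect, src, Set.mem_ofPred_eq] at h1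
    omega

private lemma dom_bounds {k : ℕ} {e : Edge} (he : e ∈ inE (dom .W .E k)) :
    -(36 * (k : ℤ)) ≤ e.1 ∧ e.1 ≤ 36 * k ∧ -(32 * (k : ℤ)) ≤ e.2.1 ∧ e.2.1 ≤ 32 * k := by
  have h := mem_dom he.1
  simp only [src] at h
  omega

theorem injOn_modE {N k : ℕ} (hk : 64 ≤ k) (hN : 128 * k ≤ N) :
    Set.InjOn (modE N) (inE (dom .W .E k) ∪ EC N k) := by
  have hN' : 128 * (k : ℤ) ≤ N := by exact_mod_cast hN
  have hk' : 64 ≤ (k : ℤ) := by exact_mod_cast hk
  have key : ∀ e ∈ inE (dom .W .E k) ∪ EC N k, -(36 * (k : ℤ)) ≤ e.1 ∧ e.1 < N - 36 * k ∧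
      -(32 * (k : ℤ)) ≤ e.2.1 ∧ e.2.1 ≤ 32 * k := by
    rintro e (he | he)
    · have := dom_bounds he
      omega
    · have := EC_bounds hk hN he
      omega
  rintro ⟨x, y, t⟩ h1 ⟨x', y', t'⟩ h2 h
  have k1 := key _ h1
  have k2 := key _ h2
  simp only at k1 k2
  simp only [modE, Prod.mk.injEq] at h
  obtain ⟨h3, h4, h5⟩ := h
  rw [mod_eq' (by omega) (by omega) h3, mod_eq' (by omega) (by omega) h4, h5]

theorem EC_inter {N k : ℕ} (hk : 64 ≤ k) (hN : 128 * k ≤ N) :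
    EC N k ∩ inE (dom .W .E k) ⊆ inE (T .W k ∪ T .E k) := by
  have hN' : 128 * (k : ℤ) ≤ N := by exact_mod_cast hN
  have key : ∀ v : Vert, v ∈ Cor N k → v ∈ dom .W .E k → v ∈ T .W k ∪ T .E k := by
    intro v h1 h2
    have h3 := mem_dom h2
    right
    simp only [Cor, rect, Set.mem_ofPred_eq] at h1
    simp only [T, rect, Set.mem_ofPred_eq]
    omega
  rintro e ⟨⟨h1, -⟩ | h1, h2⟩
  · exact ⟨key _ h1.1 h2.1, key _ h1.2 h2.2⟩
  · exact ⟨Or.inl h1.1, Or.inl h1.2⟩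

theorem TW_sub (N k : ℕ) : inE (T .W k) ⊆ EC N k := fun _ h => Or.inr h

theorem TE_sub {N k : ℕ} (hk : 64 ≤ k) (hN : 128 * k ≤ N) : inE (T .E k) ⊆ EC N k := by
  have hN' : 128 * (k : ℤ) ≤ N := by exact_mod_cast hN
  have hk' : 64 ≤ (k : ℤ) := by exact_mod_cast hk
  have key : ∀ v : Vert, v ∈ T .E k → v ∈ Cor N k := by
    intro v h
    simp only [T, rect, Set.mem_ofPred_eq] at h
    simp only [Cor, rect, Set.mem_ofPred_eq]
    omega
  intro e he
  refine Or.inl ⟨⟨key _ he.1, key _ he.2⟩, ?_⟩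
  have h := he.1
  simp only [T, rect, src, Set.mem_ofPred_eq] at h
  omega

private lemma inE_rect_finite (a b c d : ℤ) : (inE (rect a b c d)).Finite :=
  (eRect a b c d).finite_toSet.subset fun _ he => Finset.mem_coe.2 (mem_eRect.2 he.1)

theorem EC_finite (N k : ℕ) : (EC N k).Finite := by
  refine ((inE_rect_finite (28 * k) (N - 28 * k) (-(3 * k)) (3 * k)).union
    (inE_rect_finite (-(36 * k)) (-(28 * k)) (-(3 * k)) (3 * k))).subset ?_
  rintro e (h | h)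
  · exact Or.inl h.1
  · exact Or.inr h

private lemma glu_congr {N k : ℕ} (hN : 128 * k ≤ N) {η η' : Config}
    (h : ∀ e ∈ EC N k, η e = η' e) :
    ∀ e ∈ inE (rect (28 * k) (N - 28 * k) (-(3 * k)) (3 * k)), glu N k η e = glu N k η' e := by
  have hN' : 128 * (k : ℤ) ≤ N := by exact_mod_cast hN
  rintro ⟨x, y, t⟩ he
  unfold glu
  by_cases hx : x < N - 36 * k
  · simp only [hx, if_true]
    exact h _ (Or.inl ⟨he, hx⟩)
  · simp only [hx, if_false]
    refine h _ (Or.inr ?_)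
    rw [mem_inE_rect] at he
    show (x - N, y, t) ∈ inE (rect _ _ _ _)
    rw [mem_inE_rect]
    simp only at he ⊢
    cases t
    · simp only [Bool.false_eq_true, false_imp_iff, true_and, forall_const] at he ⊢
      omega
    · simp only [Bool.true_eq_false, false_imp_iff, and_true, forall_const] at he ⊢
      omega

theorem locS_NpT {N k : ℕ} (hk : 64 ≤ k) (hN : 128 * k ≤ N) : LocS (EC N k) (NpT N k) := by
  intro η η' h hη
  refine hcross_congr (fun e he ho => ?_) hη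
  rw [← glu_congr hN h e he]
  exact ho

theorem incr_NpT (N k : ℕ) : Incr (NpT N k) := by
  intro η η' h hη
  refine hcross_congr (fun e _ ho => ?_) hη
  unfold glu at ho ⊢
  split_ifs at ho ⊢
  · exact h _ ho
  · exact h _ ho

private lemma locS_NoX (N k : ℕ) :
    LocS (inE (rect (40 * k) (50 * k) (3 * k + 1) (N - 3 * k - 1))) (NoX N k) := by
  intro η η' h hη hη'
  refine hη (hcross_congr (fun e he ho => ?_) hη')
  rw [h e he]
  exact ho

/-- `NoX` does not see the corridor nor the clusters. -/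
theorem locS_HT {N k ρ K : ℕ} (hk : 64 ≤ k) (hN : 128 * k ≤ N) (S : Set Vert) :
    LocS (detE (modE N) .W .E k (EC N k) S)ᶜ (HT N k ρ K S) := by
  have hN' : 128 * (k : ℤ) ≤ N := by exact_mod_cast hN
  have hk' : 64 ≤ (k : ℤ) := by exact_mod_cast hk
  intro η η' h hη
  refine ⟨locS_seal _ _ _ η η' h hη.1, locS_NoX N k η η' (fun e he => h e ?_) hη.2⟩
  rintro ⟨e', he', heq⟩
  rw [mem_inE_rect] at he
  obtain ⟨x, y, t⟩ := e
  obtain ⟨x', y', t'⟩ := e'
  simp only [modE, Prod.mk.injEq] at heq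
  obtain ⟨h3, h4, h5⟩ := heq
  simp only at he
  have hb : (40 * (k : ℤ) ≤ x ∧ x ≤ 50 * k) ∧ 3 * (k : ℤ) + 1 ≤ y ∧ y ≤ N - 3 * k - 1 := by
    cases t
    · simp only [Bool.false_eq_true, false_imp_iff, true_and, forall_const] at he
      omega
    · simp only [Bool.true_eq_false, false_imp_iff, and_true, forall_const] at he
      omega
  rcases he' with he' | he'
  · have h6 := dom_bounds he'.1
    simp only at h6
    have := mod_eq' (by omega) (by omega) h3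
    omega
  · have h6 := EC_bounds hk hN he'
    simp only at h6
    have := mod_eq' (by omega) (by omega) h4
    omega

private lemma localOn_NoX (N k : ℕ) :
    LocalOn (eRect (40 * k) (50 * k) (3 * k + 1) (N - 3 * k - 1)) (NoX N k) := by
  intro η η' h hη
  exact locS_NoX N k η η' (fun e he => h e (mem_eRect.2 he.1)) hη

theorem localOn_HT (N k ρ K : ℕ) : ∃ Λ : Finset Edge, ∀ S, LocalOn Λ (HT N k ρ K S) := by
  classical
  obtain ⟨Λ, hΛ⟩ := localOn_seal (grid ρ K) ρ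
  refine ⟨Λ ∪ eRect (40 * k) (50 * k) (3 * k + 1) (N - 3 * k - 1), fun S η η' h hη => ?_⟩
  exact ⟨hΛ _ η η' (fun e he => h e (Finset.mem_union_left _ he)) hη.1,
    localOn_NoX N k η η' (fun e he => h e (Finset.mem_union_right _ he)) hη.2⟩

private lemma modE_injOn' {N : ℕ} {a b c d : ℤ} (hab : b - a < N) (hcd : d - c < N) :
    Set.InjOn (modE N) (eRect a b c d : Set Edge) := by
  rintro ⟨x, y, t⟩ h1 ⟨x', y', t'⟩ h2 h
  rw [Finset.mem_coe, mem_eRect] at h1 h2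
  simp only [src, rect, Set.mem_ofPred_eq] at h1 h2
  simp only [modE, Prod.mk.injEq] at h
  obtain ⟨h3, h4, h5⟩ := h
  rw [mod_eq' (by omega) (by omega) h3, mod_eq' (by omega) (by omega) h4, h5]

theorem NpT_lower (c : ℝ) (hc : 0 < c) (K₁ : ℕ) : ∃ c' : ℝ, 0 < c' ∧ ∀ (N k : ℕ) (q : I),
    64 ≤ k → 128 * k ≤ N → N ≤ K₁ * k → RSWreg c N q →
      c' ≤ Pr q {ω | pb (modE N) ω ∈ NpT N k} := by
  obtain ⟨c', hc', H⟩ := Pool.Agent.H29.Sep.rect_lower c hc K₁
  refine ⟨c', hc', fun N k q hk hN hK hR => ?_⟩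
  have hN' : 128 * (k : ℤ) ≤ N := by exact_mod_cast hN
  have hk' : 64 ≤ (k : ℤ) := by exact_mod_cast hk
  have hK' : (N : ℤ) ≤ K₁ * k := by exact_mod_cast hK
  have hK1 : (1 : ℤ) ≤ K₁ := by
    rcases Nat.eq_zero_or_pos K₁ with h | h
    · rw [h] at hK
      omega
    · exact_mod_cast h
  have h1 := (H N q (by omega) hR (28 * k) (N - 28 * k) (-(3 * k)) (3 * k) (by omega) (by omega)
    (by nlinarith) (by nlinarith)).1
  refine h1.trans ?_
  rw [← Pr_comp (localOn_hcross (28 * (k : ℤ)) (N - 28 * k) (-(3 * k)) (3 * k))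
    (modE_injOn' (N := N) (by omega) (by omega))]
  refine Pr_mono fun ω hω => ?_
  show HCross (glu N k (per N ω)) _ _ _ _
  rw [glu_per]
  exact hω

private lemma incr_NoX_compl (N k : ℕ) : Incr ({ω | pb (modE N) ω ∈ NoX N k} : Set Config)ᶜ := by
  intro ω ω' h hω hω'
  have h1 : HCross (pb (modE N) ω) (40 * k) (50 * k) (3 * k + 1) (N - 3 * k - 1) := by
    by_contra hcon
    exact hω hcon
  exact hω' (hcross_congr (fun e _ ho => h _ ho) h1)

private lemma incr_Seal_compl (N ρ : ℕ) (G : Finset Vert) (t : Set Edge) :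
    Incr ({ω | pb (modE N) ω ∈ Seal G ρ t} : Set Config)ᶜ := by
  intro ω ω' h hω hω'
  exact seal_decr G ρ t _ _ (fun e he => h (modE N e) he) hω hω'

theorem HT_lower (c : ℝ) (hc : 0 < c) (K₁ K : ℕ) : ∃ c' : ℝ, 0 < c' ∧ ∀ (N k ρ : ℕ) (q : I)
    (S : Set Vert), 64 ≤ k → 128 * k ≤ N → N ≤ K₁ * k → 1 ≤ ρ → 8 * ρ ≤ k → RSWreg c N q →
      c' ≤ Pr q {ω | pb (modE N) ω ∈ HT N k ρ K S} := by
  classical
  obtain ⟨c₁, hc₁, H1⟩ := Pool.Agent.H29.Sep.rect_lower c hc K₁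
  obtain ⟨c₂, hc₂, H2⟩ := seal_lower_pb c hc 1 ((2 * K + 1) ^ 2)
  refine ⟨c₂ * c₁, by positivity, fun N k ρ q S hk hN hK hρ hρk hR => ?_⟩
  have hN' : 128 * (k : ℤ) ≤ N := by exact_mod_cast hN
  have hk' : 64 ≤ (k : ℤ) := by exact_mod_cast hk
  have hK' : (N : ℤ) ≤ K₁ * k := by exact_mod_cast hK
  have hρk' : 8 * (ρ : ℤ) ≤ k := by exact_mod_cast hρk
  have hK1 : (1 : ℤ) ≤ K₁ := by
    rcases Nat.eq_zero_or_pos K₁ with h | h
    · rw [h] at hK
      omega
    · exact_mod_cast h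
  have hseal := H2 N ρ q (grid ρ K) (detE (modE N) .W .E k (EC N k) S) (modE N) (by omega) hR hρ
    (by omega) (card_grid ρ K) (by
      intro g _ e he e' he' h
      refine modE_injOn' (N := N) (a := g.1 - (3 * ρ : ℕ)) (b := g.1 + (3 * ρ : ℕ))
        (c := g.2 - (3 * ρ : ℕ)) (d := g.2 + (3 * ρ : ℕ)) (by push_cast; omega)
        (by push_cast; omega) ?_ ?_ h
      · exact Finset.mem_coe.2 (mem_eRect.2 he.1)
      · exact Finset.mem_coe.2 (mem_eRect.2 he'.1))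
  have hnox : c₁ ≤ Pr q {ω | pb (modE N) ω ∈ NoX N k} := by
    have h1 := (H1 N (σ q) (by omega) (Pool.Agent.H29.Sep.rswreg_symm hR) (3 * k)
      (N - 3 * k - 1) (40 * k) (50 * k - 1) (by omega) (by omega) (by nlinarith)
      (by nlinarith)).2
    have h2 : Pr q {ω | pb (modE N) ω ∈ NoX N k} = Pr q (NoX N k) :=
      Pr_comp (localOn_NoX N k) (modE_injOn' (N := N) (by omega) (by omega))
    rw [h2]
    refine h1.trans ?_
    rw [← Pr_dual (localOn_vcross (40 * (k : ℤ)) (50 * k - 1) (3 * k) (N - 3 * k - 1))]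
    refine Pr_mono fun ω hω => ?_
    intro hcon
    have h3 := not_hcross_and_dual_vcross (by omega) hcon
    rw [show (3 * (k : ℤ) + 1 - 1) = 3 * k by ring] at h3
    exact h3 hω
  obtain ⟨Λ, hΛ⟩ := localOn_seal (grid ρ K) ρ
  have hl1 : LocalOn (Λ.image (modE N)) {ω | pb (modE N) ω ∈
      Seal (grid ρ K) ρ (detE (modE N) .W .E k (EC N k) S)} := by
    intro ω ω' h hω
    exact hΛ _ _ _ (fun e he => h _ (Finset.mem_image_of_mem _ he)) hω
  have hl2 : LocalOn ((eRect (40 * k) (50 * k) (3 * k + 1) (N - 3 * k - 1)).image (modE N))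
      {ω | pb (modE N) ω ∈ NoX N k} := by
    intro ω ω' h hω
    exact localOn_NoX N k _ _ (fun e he => h _ (Finset.mem_image_of_mem _ he)) hω
  have hfkg := fkg_decr (p := q) hl1 hl2 (incr_Seal_compl N ρ _ _) (incr_NoX_compl N k)
  refine ((mul_le_mul hseal hnox hc₁.le Pr_nonneg).trans hfkg).trans (Pr_mono ?_)
  intro ω hω
  exact ⟨hω.1, hω.2⟩

end Pool.Agent.H26.ST
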